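import Mathlib

/-! Distance domination in Cartesian products: basic lemmas and the comparison of distances. -/

set_option autoImplicit false

namespace Pool.Agent.Q250.DD

open SimpleGraph Finset

/-- `D` dominates `G` at distance `k` -/
def Dom {V : Type*} (k : ℕ) (G : SimpleGraph V) (D : Finset V) : Prop := ∀ v : V, ∃ u ∈ D, G.edist u v ≤ (k : ℕ∞)

/-- the distance `k` domination number -/
noncomputable def gam {V : Type*} (k : ℕ) (G : SimpleGraph V) : ℕ :=
  sInf {n : ℕ | ∃ D : Finset V, D.card = n ∧ ∀ v : V, ∃ u ∈ D, G.edist u v ≤ (k : ℕ∞)}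

variable {V W : Type*} {G : SimpleGraph V} {H : SimpleGraph W} {k : ℕ}

theorem gam_le {D : Finset V} (h : Dom k G D) : gam k G ≤ D.card := Nat.sInf_le ⟨D, rfl, h⟩

theorem gam_spec [Finite V] (k : ℕ) (G : SimpleGraph V) : ∃ D : Finset V, Dom k G D ∧ D.card = gam k G := by
  classical
  have := Fintype.ofFinite V
  have hne : {n : ℕ | ∃ D : Finset V, D.card = n ∧ ∀ v : V, ∃ u ∈ D, G.edist u v ≤ (k : ℕ∞)}.Nonempty :=
    ⟨_, Finset.univ, rfl, fun v => ⟨v, Finset.mem_univ v, by simp⟩⟩
  obtain ⟨D, hD, h⟩ := Nat.sInf_mem hne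
  exact ⟨D, h, hD⟩

theorem dom_nonempty [Nonempty V] {D : Finset V} (h : Dom k G D) : D.Nonempty := by
  obtain ⟨u, hu, _⟩ := h (Classical.arbitrary V)
  exact ⟨u, hu⟩

theorem gam_pos [Finite V] [Nonempty V] (k : ℕ) (G : SimpleGraph V) : 1 ≤ gam k G := by
  obtain ⟨D, hD, hc⟩ := gam_spec k G
  rw [← hc]
  exact Finset.card_pos.2 (dom_nonempty hD)

/-- the covering condition in a product -/
theorem dom_prod {D : Finset (V × W)} (h : Dom k (G □ H) D) (g : V) (w : W) :
    ∃ j ∈ D, G.edist j.1 g + H.edist j.2 w ≤ (k : ℕ∞) := by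
  obtain ⟨j, hj, hle⟩ := h (g, w)
  rw [edist_boxProd] at hle
  exact ⟨j, hj, hle⟩

/-- the elements nearer in the first factor than in the second factor dominate the second factor -/
theorem near_dom [DecidableEq (V × W)] {D : Finset (V × W)} (h : Dom k (G □ H) D) (i : V × W) (w : W) :
    ∃ j ∈ D, (j = i ∨ G.edist i.1 j.1 < H.edist i.2 j.2) ∧ H.edist j.2 w ≤ (k : ℕ∞) ∨ H.edist i.2 w ≤ (k : ℕ∞) := by
  obtain ⟨j, hj, hle⟩ := dom_prod h i.1 w
  by_cases hi : H.edist i.2 w ≤ (k : ℕ∞)
  · exact ⟨j, hj, Or.inr hi⟩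
  refine ⟨j, hj, Or.inl ⟨Or.inr ?_, le_trans le_add_self hle⟩⟩
  by_contra hlt
  rw [not_lt] at hlt
  apply hi
  calc H.edist i.2 w ≤ H.edist i.2 j.2 + H.edist j.2 w := SimpleGraph.edist_triangle
    _ ≤ G.edist i.1 j.1 + H.edist j.2 w := add_le_add_left hlt _
    _ = G.edist j.1 i.1 + H.edist j.2 w := by rw [G.edist_comm]
    _ ≤ k := hle

theorem near_dom' [DecidableEq (V × W)] {D : Finset (V × W)} (h : Dom k (G □ H) D) (i : V × W) (g : V) :
    ∃ j ∈ D, (j = i ∨ H.edist i.2 j.2 < G.edist i.1 j.1) ∧ G.edist j.1 g ≤ (k : ℕ∞) ∨ G.edist i.1 g ≤ (k : ℕ∞) := by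
  obtain ⟨j, hj, hle⟩ := dom_prod h g i.2
  by_cases hi : G.edist i.1 g ≤ (k : ℕ∞)
  · exact ⟨j, hj, Or.inr hi⟩
  refine ⟨j, hj, Or.inl ⟨Or.inr ?_, le_trans le_self_add hle⟩⟩
  by_contra hlt
  rw [not_lt] at hlt
  apply hi
  calc G.edist i.1 g ≤ G.edist i.1 j.1 + G.edist j.1 g := SimpleGraph.edist_triangle
    _ ≤ H.edist i.2 j.2 + G.edist j.1 g := add_le_add_left hlt _
    _ = G.edist j.1 g + H.edist j.2 i.2 := by rw [add_comm, H.edist_comm]
    _ ≤ k := hle

open scoped Classical in
/-- the elements nearer to `i` in the first factor -/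
noncomputable def less (G : SimpleGraph V) (H : SimpleGraph W) (D : Finset (V × W)) (i : V × W) : Finset (V × W) :=
  D.filter fun j => G.edist i.1 j.1 < H.edist i.2 j.2

open scoped Classical in
/-- the elements nearer to `i` in the second factor -/
noncomputable def more (G : SimpleGraph V) (H : SimpleGraph W) (D : Finset (V × W)) (i : V × W) : Finset (V × W) :=
  D.filter fun j => H.edist i.2 j.2 < G.edist i.1 j.1

theorem le_less {D : Finset (V × W)} (h : Dom k (G □ H) D) (i : V × W) :
    gam k H ≤ (less G H D i).card + 1 := by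
  classical
  have h1 : Dom k H (((insert i (less G H D i)).image Prod.snd)) := by
    intro w
    obtain ⟨j, hj, h1 | h1⟩ := near_dom h i w
    · refine ⟨j.2, Finset.mem_image.2 ⟨j, ?_, rfl⟩, h1.2⟩
      rcases h1.1 with h2 | h2
      · rw [h2]; exact Finset.mem_insert_self _ _
      · exact Finset.mem_insert_of_mem (Finset.mem_filter.2 ⟨hj, h2⟩)
    · exact ⟨i.2, Finset.mem_image.2 ⟨i, Finset.mem_insert_self _ _, rfl⟩, h1⟩
  exact (gam_le h1).trans (Finset.card_image_le.trans (Finset.card_insert_le _ _))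

theorem le_more {D : Finset (V × W)} (h : Dom k (G □ H) D) (i : V × W) :
    gam k G ≤ (more G H D i).card + 1 := by
  classical
  have h1 : Dom k G (((insert i (more G H D i)).image Prod.fst)) := by
    intro w
    obtain ⟨j, hj, h1 | h1⟩ := near_dom' h i w
    · refine ⟨j.1, Finset.mem_image.2 ⟨j, ?_, rfl⟩, h1.2⟩
      rcases h1.1 with h2 | h2
      · rw [h2]; exact Finset.mem_insert_self _ _
      · exact Finset.mem_insert_of_mem (Finset.mem_filter.2 ⟨hj, h2⟩)
    · exact ⟨i.1, Finset.mem_image.2 ⟨i, Finset.mem_insert_self _ _, rfl⟩, h1⟩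
  exact (gam_le h1).trans (Finset.card_image_le.trans (Finset.card_insert_le _ _))

theorem card_three {D : Finset (V × W)} {i : V × W} (hi : i ∈ D) :
    (less G H D i).card + (more G H D i).card + 1 ≤ D.card := by
  classical
  have hd : Disjoint (less G H D i) (more G H D i) := by
    rw [Finset.disjoint_left]
    intro j hj hj'
    exact absurd (Finset.mem_filter.1 hj').2 (not_lt.2 (Finset.mem_filter.1 hj).2.le)
  have hni : i ∉ less G H D i ∪ more G H D i := by
    intro h
    rcases Finset.mem_union.1 h with h | h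
    · have := (Finset.mem_filter.1 h).2; simp at this
    · have := (Finset.mem_filter.1 h).2; simp at this
  have hsub : insert i (less G H D i ∪ more G H D i) ⊆ D := by
    intro j hj
    rcases Finset.mem_insert.1 hj with h | h
    · rw [h]; exact hi
    · rcases Finset.mem_union.1 h with h | h
      · exact (Finset.mem_filter.1 h).1
      · exact (Finset.mem_filter.1 h).1
  have := Finset.card_le_card hsub
  rw [Finset.card_insert_of_notMem hni, Finset.card_union_of_disjoint hd] at this
  exact this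

/-- the sum bound -/
theorem sum_bound_D [Nonempty V] [Nonempty W] {D : Finset (V × W)} (h : Dom k (G □ H) D) :
    gam k G + gam k H ≤ D.card + 1 := by
  obtain ⟨i, hi⟩ := dom_nonempty h
  have h1 := le_less h i
  have h2 := le_more h i
  have h3 := card_three (G := G) (H := H) hi
  omega

/-- parity -/
theorem even_less (D : Finset (V × W)) : Even (∑ i ∈ D, (less G H D i).card) := by
  classical
  let R : SimpleGraph D := {
    Adj := fun i j => G.edist i.1.1 j.1.1 < H.edist i.1.2 j.1.2
    symm := ⟨fun i j h => by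
      rw [G.edist_comm, H.edist_comm] at h
      exact h⟩
    loopless := ⟨fun i h => by simp at h⟩ }
  have h1 := R.sum_degrees_eq_twice_card_edges
  have h2 : ∑ i ∈ D, (less G H D i).card = ∑ v : D, R.degree v := by
    rw [← Finset.sum_coe_sort D (fun i => (less G H D i).card)]
    apply Finset.sum_congr rfl
    intro v _
    rw [← SimpleGraph.card_neighborFinset_eq_degree]
    symm
    apply Finset.card_bij (fun (j : D) _ => j.1)
    · intro j hj
      rw [SimpleGraph.mem_neighborFinset] at hj
      exact Finset.mem_filter.2 ⟨j.2, hj⟩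
    · intro a _ b _ hab
      exact Subtype.ext hab
    · intro j hj
      have := Finset.mem_filter.1 hj
      refine ⟨⟨j, this.1⟩, ?_, rfl⟩
      rw [SimpleGraph.mem_neighborFinset]
      exact this.2
  rw [h2, h1]
  exact even_two_mul _

theorem sum_bound_even [Nonempty V] [Nonempty W] {D : Finset (V × W)} (h : Dom k (G □ H) D)
    (ha : Even (gam k G)) (hb : Even (gam k H)) : gam k G + gam k H ≤ D.card := by
  have h0 := sum_bound_D h
  by_contra hlt
  have hc : D.card + 1 = gam k G + gam k H := by omega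
  have hall : ∀ i ∈ D, (less G H D i).card + 1 = gam k H := by
    intro i hi
    have h1 := le_less h i
    have h2 := le_more h i
    have h3 := card_three (G := G) (H := H) hi
    omega
  have hs := even_less (G := G) (H := H) D
  have hsum : ∑ i ∈ D, ((less G H D i).card + 1) = D.card * gam k H := by
    rw [Finset.sum_congr rfl hall, Finset.sum_const, smul_eq_mul]
  rw [Finset.sum_add_distrib, Finset.sum_const, smul_eq_mul, mul_one] at hsum
  have hodd : Odd D.card := by
    rcases ha.add hb with ⟨r, hr⟩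
    rw [← hc] at hr
    exact ⟨r - 1, by omega⟩
  have he : Even (D.card * gam k H) := hb.mul_left _
  rw [← hsum] at he
  exact (Nat.not_even_iff_odd.2 (hs.add_odd hodd)) he

end Pool.Agent.Q250.DD
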