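import Pool.Agent.Q250.DD.Base

/-! Disjoint copies. -/

set_option autoImplicit false

namespace Pool.Agent.Q250.DD

open SimpleGraph Finset

variable {V W : Type} {G : SimpleGraph V} {H : SimpleGraph W} {k : ℕ}

/-- `m` disjoint copies of `G` -/
def copies (m : ℕ) (G : SimpleGraph V) : SimpleGraph (Fin m × V) := (⊥ : SimpleGraph (Fin m)) □ G

theorem edist_copies (m : ℕ) (x y : Fin m × V) :
    (copies m G).edist x y = if x.1 = y.1 then G.edist x.2 y.2 else ⊤ := by
  unfold copies
  rw [edist_boxProd]
  by_cases h : x.1 = y.1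
  · rw [if_pos h, h]; simp
  · rw [if_neg h, SimpleGraph.edist_bot_of_ne h, top_add]

theorem gam_copies [Finite V] (m k : ℕ) (G : SimpleGraph V) : gam k (copies m G) = m * gam k G := by
  classical
  have := Fintype.ofFinite V
  apply le_antisymm
  · obtain ⟨D, hD, hc⟩ := gam_spec k G
    have h1 : Dom k (copies m G) ((Finset.univ : Finset (Fin m)) ×ˢ D) := by
      intro v
      obtain ⟨u, hu, hle⟩ := hD v.2
      refine ⟨(v.1, u), Finset.mem_product.2 ⟨Finset.mem_univ _, hu⟩, ?_⟩
      rw [edist_copies, if_pos rfl]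
      exact hle
    have := gam_le h1
    rw [Finset.card_product, Finset.card_univ, Fintype.card_fin, hc] at this
    exact this
  · obtain ⟨D, hD, hc⟩ := gam_spec k (copies m G)
    rw [← hc]
    have h1 : ∀ i : Fin m, gam k G ≤ (D.filter fun u => u.1 = i).card := by
      intro i
      have hd : Dom k G ((D.filter fun u => u.1 = i).image Prod.snd) := by
        intro v
        obtain ⟨u, hu, hle⟩ := hD (i, v)
        rw [edist_copies] at hle
        by_cases hi : u.1 = i
        · rw [if_pos hi] at hle
          exact ⟨u.2, Finset.mem_image.2 ⟨u, Finset.mem_filter.2 ⟨hu, hi⟩, rfl⟩, hle⟩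
        · rw [if_neg hi] at hle
          exact absurd hle (not_le.2 (ENat.natCast_lt_top _))
      exact (gam_le hd).trans Finset.card_image_le
    have h2 : ∑ i : Fin m, (D.filter fun u => u.1 = i).card = D.card :=
      (Finset.card_eq_sum_card_fiberwise (f := Prod.fst) (t := Finset.univ) (fun x _ => Finset.mem_univ _)).symm
    rw [← h2]
    calc m * gam k G = ∑ _i : Fin m, gam k G := by simp
      _ ≤ _ := Finset.sum_le_sum fun i _ => h1 i

theorem gam_prod_copies [Finite V] [Finite W] (m n k : ℕ) (G : SimpleGraph V) (H : SimpleGraph W) :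
    gam k (copies m G □ copies n H) ≤ m * n * gam k (G □ H) := by
  classical
  obtain ⟨D, hD, hc⟩ := gam_spec k (G □ H)
  let e : (Fin m × Fin n) × (V × W) → (Fin m × V) × (Fin n × W) := fun p => ((p.1.1, p.2.1), (p.1.2, p.2.2))
  have h1 : Dom k (copies m G □ copies n H) (((Finset.univ : Finset (Fin m × Fin n)) ×ˢ D).image e) := by
    intro v
    obtain ⟨j, hj, hle⟩ := dom_prod hD v.1.2 v.2.2
    refine ⟨e ((v.1.1, v.2.1), j), Finset.mem_image.2 ⟨_, Finset.mem_product.2 ⟨Finset.mem_univ _, hj⟩, rfl⟩, ?_⟩
    rw [edist_boxProd, edist_copies, edist_copies, if_pos rfl, if_pos rfl]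
    exact hle
  have h2 := (gam_le h1).trans Finset.card_image_le
  rw [Finset.card_product, hc] at h2
  simpa [Fintype.card_prod] using h2

end Pool.Agent.Q250.DD
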