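import Pool.Agent.Q250.DD.Base

/-! Fractional packings, elimination orders and forests. -/

set_option autoImplicit false

namespace Pool.Agent.Q250.DD

open SimpleGraph Finset

variable {V W : Type*} {G : SimpleGraph V} {H : SimpleGraph W} {k : ℕ}

open scoped Classical in
/-- the fractional packing bound -/
theorem frac [Fintype V] [Fintype W] (w : V → ℝ) (h0 : ∀ v, 0 ≤ w v)
    (h1 : ∀ u, ∑ v : V, (if G.edist u v ≤ (k : ℕ∞) then w v else 0) ≤ 1) :
    (∑ v : V, w v) * (gam k H : ℝ) ≤ gam k (G □ H) := by
  obtain ⟨D, hD, hc⟩ := gam_spec k (G □ H)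
  rw [← hc, Finset.sum_mul]
  have e1 : ∀ v : V, (gam k H : ℝ) ≤ ∑ j ∈ D, if G.edist j.1 v ≤ (k : ℕ∞) then (1 : ℝ) else 0 := by
    intro v
    have hd : Dom k H ((D.filter fun j => G.edist j.1 v ≤ (k : ℕ∞)).image Prod.snd) := by
      intro x
      obtain ⟨j, hj, hle⟩ := dom_prod hD v x
      exact ⟨j.2, Finset.mem_image.2 ⟨j, Finset.mem_filter.2 ⟨hj, le_trans le_self_add hle⟩, rfl⟩,
        le_trans le_add_self hle⟩
    rw [← Finset.sum_filter, Finset.sum_const, nsmul_eq_mul, mul_one]
    exact_mod_cast (gam_le hd).trans Finset.card_image_le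
  calc ∑ v : V, w v * (gam k H : ℝ)
      ≤ ∑ v : V, w v * ∑ j ∈ D, (if G.edist j.1 v ≤ (k : ℕ∞) then (1 : ℝ) else 0) :=
        Finset.sum_le_sum fun v _ => mul_le_mul_of_nonneg_left (e1 v) (h0 v)
    _ = ∑ j ∈ D, ∑ v : V, (if G.edist j.1 v ≤ (k : ℕ∞) then w v else 0) := by
        rw [Finset.sum_comm]
        apply Finset.sum_congr rfl; intro v _
        rw [Finset.mul_sum]
        apply Finset.sum_congr rfl; intro j _
        split_ifs <;> simp
    _ ≤ ∑ j ∈ D, (1 : ℝ) := Finset.sum_le_sum fun j _ => h1 j.1
    _ = D.card := by simp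

/-- the packing bound -/
theorem packing [Fintype V] [Fintype W] (P : Finset V)
    (hP : ∀ p ∈ P, ∀ q ∈ P, p ≠ q → ¬ G.edist p q ≤ (2 * k : ℕ)) :
    P.card * gam k H ≤ gam k (G □ H) := by
  classical
  have h := frac (H := H) (k := k) (G := G) (fun v => if v ∈ P then (1 : ℝ) else 0)
    (fun v => by split_ifs <;> norm_num) (fun u => by
      have e : ∑ v : V, (if G.edist u v ≤ (k : ℕ∞) then (if v ∈ P then (1 : ℝ) else 0) else 0)
          = ((P.filter fun v => G.edist u v ≤ (k : ℕ∞)).card : ℝ) := by
        rw [Finset.card_filter, Nat.cast_sum, ← Finset.sum_filter_add_sum_filter_not Finset.univ (fun v => v ∈ P)]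
        have z : ∑ x ∈ Finset.univ.filter (fun x => ¬ x ∈ P),
            (if G.edist u x ≤ (k : ℕ∞) then (if x ∈ P then (1 : ℝ) else 0) else 0) = 0 := by
          apply Finset.sum_eq_zero
          intro x hx
          rw [if_neg (Finset.mem_filter.1 hx).2]
          simp
        rw [z, add_zero]
        have : Finset.univ.filter (fun x => x ∈ P) = P := by ext; simp
        rw [this]
        apply Finset.sum_congr rfl
        intro x hx
        rw [if_pos hx]
        split_ifs <;> simp
      rw [e]
      have : (P.filter fun v => G.edist u v ≤ (k : ℕ∞)).card ≤ 1 := by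
        rw [Finset.card_le_one]
        intro a ha b hb
        by_contra hab
        rw [Finset.mem_filter] at ha hb
        apply hP a ha.1 b hb.1 hab
        calc G.edist a b ≤ G.edist a u + G.edist u b := SimpleGraph.edist_triangle
          _ ≤ k + k := add_le_add (by rw [G.edist_comm]; exact ha.2) hb.2
          _ = ((2 * k : ℕ) : ℕ∞) := by push_cast; ring
      exact_mod_cast this)
  have e2 : ∑ v : V, (if v ∈ P then (1 : ℝ) else 0) = P.card := by simp
  rw [e2] at h
  exact_mod_cast h

/-- a vertex order with the elimination property at distance `k`: every vertex `v` has a vertex `up v` within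
distance `k` such that the vertices at distance at most `2 k` from `v` which do not come after `v` are within distance
`k` of `up v` -/
def Elim (k : ℕ) (G : SimpleGraph V) (rank : V → ℕ) (up : V → V) : Prop :=
  ∀ v, G.edist (up v) v ≤ (k : ℕ∞) ∧ ∀ x, rank x ≤ rank v → G.edist x v ≤ (2 * k : ℕ) → G.edist (up v) x ≤ (k : ℕ∞)

theorem greedy {rank : V → ℕ} {up : V → V} (h : Elim k G rank up) (U : Finset V) :
    ∃ P D : Finset V, P ⊆ U ∧ D.card ≤ P.card ∧ (∀ v ∈ U, ∃ d ∈ D, G.edist d v ≤ (k : ℕ∞)) ∧
      ∀ p ∈ P, ∀ q ∈ P, p ≠ q → ¬ G.edist p q ≤ (2 * k : ℕ) := by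
  classical
  induction hn : U.card using Nat.strong_induction_on generalizing U with
  | _ n ih =>
    rcases U.eq_empty_or_nonempty with rfl | hne
    · exact ⟨∅, ∅, by simp, by simp, by simp, by simp⟩
    obtain ⟨v, hv, hmax⟩ := U.exists_max_image rank hne
    have hlt : (U.filter fun x => ¬ G.edist (up v) x ≤ (k : ℕ∞)).card < n := by
      rw [← hn]
      apply Finset.card_lt_card
      refine ⟨Finset.filter_subset _ _, fun hs => ?_⟩
      have := Finset.mem_filter.1 (hs hv)
      exact this.2 (h v).1
    obtain ⟨P, D, hPU, hc, hdom, hpack⟩ := ih _ hlt _ rfl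
    have hvP : v ∉ P := fun hP => (Finset.mem_filter.1 (hPU hP)).2 (h v).1
    have hfar : ∀ x ∈ P, ¬ G.edist x v ≤ (2 * k : ℕ) := by
      intro x hx hle
      have hx' := Finset.mem_filter.1 (hPU hx)
      exact hx'.2 ((h v).2 x (hmax x hx'.1) hle)
    refine ⟨insert v P, insert (up v) D, ?_, ?_, ?_, ?_⟩
    · intro x hx
      rcases Finset.mem_insert.1 hx with rfl | hx
      · exact hv
      · exact (Finset.mem_filter.1 (hPU hx)).1
    · rw [Finset.card_insert_of_notMem hvP]
      exact (Finset.card_insert_le _ _).trans (by omega)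
    · intro x hx
      by_cases hxu : G.edist (up v) x ≤ (k : ℕ∞)
      · exact ⟨up v, Finset.mem_insert_self _ _, hxu⟩
      · obtain ⟨d, hd, hdx⟩ := hdom x (Finset.mem_filter.2 ⟨hx, hxu⟩)
        exact ⟨d, Finset.mem_insert_of_mem hd, hdx⟩
    · intro p hp q hq hpq
      rcases Finset.mem_insert.1 hp with e1 | e1 <;> rcases Finset.mem_insert.1 hq with e2 | e2
      · exact absurd (e1.trans e2.symm) hpq
      · rw [e1, G.edist_comm]; exact hfar q e2
      · rw [e2]; exact hfar p e1
      · exact hpack p e1 q e2 hpq

theorem elim_le [Fintype V] [Fintype W] {rank : V → ℕ} {up : V → V} (h : Elim k G rank up) :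
    gam k G * gam k H ≤ gam k (G □ H) := by
  obtain ⟨P, D, _, hc, hdom, hpack⟩ := greedy h Finset.univ
  have h1 : gam k G ≤ P.card := (gam_le (fun v => hdom v (Finset.mem_univ v))).trans hc
  exact (Nat.mul_le_mul_right _ h1).trans (packing P hpack)

/-- forests -/
theorem forest_elim (hG : G.IsAcyclic) (k : ℕ) : ∃ (rank : V → ℕ) (up : V → V), Elim k G rank up := by
  classical
  let root : V → V := fun v => (G.connectedComponentMk v).out
  have hr : ∀ v, G.Reachable (root v) v := fun v =>
    SimpleGraph.ConnectedComponent.exact (Quot.out_eq (G.connectedComponentMk v))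
  have hroot : ∀ x v, G.Reachable x v → root x = root v := by
    intro x v h
    show (G.connectedComponentMk x).out = (G.connectedComponentMk v).out
    rw [SimpleGraph.ConnectedComponent.sound h]
  choose p hp using fun v => (hr v).exists_walk_length_eq_dist
  refine ⟨fun v => G.dist (root v) v, fun v => (p v).getVert (G.dist (root v) v - k), fun v => ?_⟩
  set n := G.dist (root v) v with hn
  set u := (p v).getVert (n - k) with hu
  have hru : G.Reachable u v := ⟨(p v).drop (n - k)⟩
  have h1 : G.dist u v ≤ n - (n - k) := by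
    have := SimpleGraph.dist_le ((p v).drop (n - k))
    rw [SimpleGraph.Walk.drop_length, hp v] at this
    exact this
  have h2 : G.dist (root v) u ≤ n - k := by
    have := SimpleGraph.dist_le ((p v).take (n - k))
    rw [SimpleGraph.Walk.take_length] at this
    exact this.trans (min_le_left _ _)
  have huk : G.dist u v ≤ k := h1.trans (by omega)
  refine ⟨?_, fun x hx hle => ?_⟩
  · rw [← hru.coe_dist_eq_edist]
    exact_mod_cast huk
  have hxv : G.Reachable x v := by
    apply SimpleGraph.reachable_of_edist_ne_top
    intro h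
    rw [h] at hle
    exact absurd hle (not_le.2 (ENat.natCast_lt_top _))
  have hxr : root x = root v := hroot x v hxv
  have hux : G.Reachable u x := hru.trans hxv.symm
  have hxd : G.dist (root v) x ≤ n := by rw [← hxr]; exact hx
  rw [← hux.coe_dist_eq_edist]
  rw [← hxv.coe_dist_eq_edist] at hle
  have hle' : G.dist x v ≤ 2 * k := by exact_mod_cast hle
  have goal : G.dist u x ≤ k := by
    by_cases hnk : n < k
    · have hu0 : u = root v := by
        rw [hu, show n - k = 0 by omega, SimpleGraph.Walk.getVert_zero]
      rw [hu0]; omega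
    rw [not_lt] at hnk
    -- the triangle inequality along the path
    have htri : n ≤ G.dist (root v) u + G.dist u v := by
      have := hru.dist_triangle_right (root v)
      omega
    obtain ⟨q, hq⟩ := hxv.exists_walk_length_eq_dist
    by_cases huq : u ∈ q.support
    · have a1 := SimpleGraph.dist_le (q.takeUntil u huq)
      have a2 := SimpleGraph.dist_le (q.dropUntil u huq)
      have a3 : (q.takeUntil u huq).length + (q.dropUntil u huq).length = q.length := by
        rw [← SimpleGraph.Walk.length_append, SimpleGraph.Walk.take_spec]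
      have := G.dist_comm (u := u) (v := x)
      omega
    · have hrx : G.Reachable (root v) x := hxr ▸ hr x
      obtain ⟨q', hq'⟩ := hrx.exists_walk_length_eq_dist
      by_cases huq' : u ∈ q'.support
      · have a1 := SimpleGraph.dist_le (q'.takeUntil u huq')
        have a2 := SimpleGraph.dist_le (q'.dropUntil u huq')
        have a3 : (q'.takeUntil u huq').length + (q'.dropUntil u huq').length = q'.length := by
          rw [← SimpleGraph.Walk.length_append, SimpleGraph.Walk.take_spec]
        have a4 : n - k ≤ G.dist (root v) u := by omega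
        omega
      · exfalso
        have e := (hG.subsingleton_path (root v) v).elim ⟨p v, (p v).isPath_of_length_eq_dist (hp v)⟩
          ⟨(q'.append q).bypass, SimpleGraph.Walk.bypass_isPath _⟩
        have e' : p v = (q'.append q).bypass := congrArg Subtype.val e
        have hmem : u ∈ (p v).support := SimpleGraph.Walk.getVert_mem_support _ _
        rw [e'] at hmem
        have := SimpleGraph.Walk.support_bypass_subset_support _ hmem
        rw [SimpleGraph.Walk.mem_support_append_iff] at this
        rcases this with h | h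
        · exact huq' h
        · exact huq h
  exact_mod_cast goal

theorem forest_le [Fintype V] [Fintype W] (hG : G.IsAcyclic) (k : ℕ) : gam k G * gam k H ≤ gam k (G □ H) := by
  obtain ⟨rank, up, h⟩ := forest_elim hG k
  exact elim_le h

/-- connected graphs with the four point condition (the graphs all of whose blocks are complete) -/
theorem fourpt_elim [Nonempty V] (hc : G.Connected)
    (h4 : ∀ a b c d : V, G.dist a b + G.dist c d ≤ max (G.dist a c + G.dist b d) (G.dist a d + G.dist b c)) (k : ℕ) :
    ∃ (rank : V → ℕ) (up : V → V), Elim k G rank up := by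
  classical
  let r : V := Classical.arbitrary V
  choose p hp using fun v => hc.exists_walk_length_eq_dist r v
  refine ⟨fun v => G.dist r v, fun v => (p v).getVert (G.dist r v - k), fun v => ?_⟩
  set n := G.dist r v with hn
  set u := (p v).getVert (n - k) with hu
  have h1 : G.dist u v ≤ n - (n - k) := by
    have := SimpleGraph.dist_le ((p v).drop (n - k))
    rw [SimpleGraph.Walk.drop_length, hp v] at this
    exact this
  have h2 : G.dist r u ≤ n - k := by
    have := SimpleGraph.dist_le ((p v).take (n - k))
    rw [SimpleGraph.Walk.take_length] at this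
    exact this.trans (min_le_left _ _)
  have htri : n ≤ G.dist r u + G.dist u v := hc.dist_triangle
  have ce : ∀ x y : V, ((G.dist x y : ℕ) : ℕ∞) = G.edist x y := fun x y => (hc x y).coe_dist_eq_edist
  refine ⟨?_, fun x hx hle => ?_⟩
  · rw [← ce]
    exact_mod_cast (show G.dist u v ≤ k by omega)
  rw [← ce] at hle ⊢
  have hle' : G.dist x v ≤ 2 * k := by exact_mod_cast hle
  have hx' : G.dist r x ≤ n := hx
  have h5 := h4 x u r v
  have c1 := G.dist_comm (u := x) (v := r)
  have c2 := G.dist_comm (u := u) (v := r)
  have c3 := G.dist_comm (u := u) (v := x)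
  have goal : G.dist u x ≤ k := by
    by_cases hnk : n < k
    · have hu0 : u = r := by
        rw [hu, show n - k = 0 by omega, SimpleGraph.Walk.getVert_zero]
      rw [hu0]; omega
    · rcases le_max_iff.1 h5 with h6 | h6 <;> omega
  exact_mod_cast goal

end Pool.Agent.Q250.DD
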